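import Mathlib

set_option autoImplicit false
set_option linter.unusedVariables false

namespace Pool.Agent.Q251.HD

open scoped Classical

/-- the absolute Galois group -/
abbrev GKK (K : Type) [Field K] : Type := Gal(AlgebraicClosure K/K)

abbrev Q0 : Type := AlgebraicClosure ℚ
abbrev G0 : Type := GKK ℚ

theorem isGalAC (K : Type) [Field K] [CharZero K] : IsGalois K (AlgebraicClosure K) where
  to_isSeparable := inferInstance
  to_normal := IsAlgClosure.normal K (AlgebraicClosure K)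

section gen

variable {K : Type} [Field K] [CharZero K]

/-- the kernel of a quadratic character -/
def kerH (χ : GKK K → ZMod 2) (hχ : ∀ σ τ, χ (σ * τ) = χ σ + χ τ) : Subgroup (GKK K) where
  carrier := {σ | χ σ = 0}
  mul_mem' := by
    intro a b ha hb
    simp only [Set.mem_ofPred_eq] at ha hb ⊢
    rw [hχ, ha, hb, add_zero]
  one_mem' := by
    have h := hχ 1 1
    simp only [mul_one] at h
    simp only [Set.mem_ofPred_eq]
    exact left_eq_add.1 h
  inv_mem' := by
    intro a ha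
    have h1 : χ 1 = 0 := by
      have h := hχ 1 1
      simp only [mul_one] at h
      exact left_eq_add.1 h
    have h := hχ a⁻¹ a
    simp only [Set.mem_ofPred_eq] at ha ⊢
    rw [inv_mul_cancel, h1, ha, add_zero] at h
    exact h.symm

theorem ne_zero_iff (a : ZMod 2) : a ≠ 0 ↔ a = 1 := by
  revert a; decide

/-- there is a nonzero element on which the group acts by the character -/
theorem exists_elt (χ : GKK K → ZMod 2) (hc : IsLocallyConstant χ)
    (hχ : ∀ σ τ, χ (σ * τ) = χ σ + χ τ) (τ0 : GKK K) (hτ0 : χ τ0 = 1) :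
    ∃ y : AlgebraicClosure K, y ≠ 0 ∧ (∀ σ : GKK K, χ σ = 0 → σ y = y) ∧ (∀ σ : GKK K, χ σ = 1 → σ y = - y) := by
  have h11 : (1 : ZMod 2) + 1 = 0 := by decide
  have hcl : IsClosed ((kerH χ hχ : Subgroup (GKK K)) : Set (GKK K)) := by
    have : ((kerH χ hχ : Subgroup (GKK K)) : Set (GKK K)) = χ ⁻¹' {0} := by
      ext σ; rfl
    rw [this]
    exact hc.isClosed_fiber 0
  let C : ClosedSubgroup (GKK K) := ⟨kerH χ hχ, hcl⟩
  have := isGalAC K
  have hfix := InfiniteGalois.fixingSubgroup_fixedField (k := K) (K := AlgebraicClosure K) C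
  -- an element of the fixed field not fixed by τ0
  have hex : ∃ x ∈ IntermediateField.fixedField (kerH χ hχ), τ0 x ≠ x := by
    by_contra hcon
    push Not at hcon
    have : τ0 ∈ (IntermediateField.fixedField (kerH χ hχ)).fixingSubgroup := by
      rw [IntermediateField.mem_fixingSubgroup_iff]
      exact hcon
    have h2 : τ0 ∈ kerH χ hχ := by
      have h3 : (IntermediateField.fixedField (kerH χ hχ)).fixingSubgroup = kerH χ hχ := hfix
      rw [h3] at this
      exact this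
    have h4 : χ τ0 = 0 := h2
    rw [hτ0] at h4
    exact one_ne_zero h4
  obtain ⟨x, hx, hτx⟩ := hex
  have hx' : ∀ σ : GKK K, χ σ = 0 → σ x = x := by
    intro σ hσ
    rw [IntermediateField.mem_fixedField_iff] at hx
    exact hx σ hσ
  have h0 : ∀ σ : GKK K, χ σ = 0 → σ (x - τ0 x) = x - τ0 x := by
    intro σ hσ
    rw [map_sub, hx' σ hσ]
    congr 1
    have hinv : χ (τ0⁻¹) = 1 := by
      have h := hχ τ0⁻¹ τ0
      rw [inv_mul_cancel, hτ0] at h
      have h1 : χ 1 = 0 := (kerH χ hχ).one_mem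
      rw [h1] at h
      by_contra hne
      have : χ τ0⁻¹ = 0 := by
        by_contra h5
        exact hne ((ne_zero_iff _).1 h5)
      rw [this] at h
      revert h; decide
    have h2 : χ (τ0⁻¹ * σ * τ0) = 0 := by
      rw [hχ, hχ, hinv, hσ, hτ0]; decide
    have h3 := hx' _ h2
    have h4 : τ0 ((τ0⁻¹ * σ * τ0) x) = τ0 x := by rw [h3]
    have h5 : τ0 ((τ0⁻¹ * σ * τ0) x) = (τ0 * (τ0⁻¹ * σ * τ0)) x := rfl
    have h6 : τ0 * (τ0⁻¹ * σ * τ0) = σ * τ0 := by group
    rw [h5, h6] at h4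
    exact h4
  have hτ : τ0 (x - τ0 x) = - (x - τ0 x) := by
    have h2 : χ (τ0 * τ0) = 0 := by rw [hχ, hτ0]; decide
    have h3 : τ0 (τ0 x) = x := hx' _ h2
    rw [map_sub, h3]; ring
  refine ⟨x - τ0 x, sub_ne_zero.2 (Ne.symm hτx), h0, ?_⟩
  intro σ hσ
  have hinv : χ (τ0⁻¹) = 1 := by
    have h := hχ τ0⁻¹ τ0
    rw [inv_mul_cancel, hτ0] at h
    have h1 : χ 1 = 0 := (kerH χ hχ).one_mem
    rw [h1] at h
    by_contra hne
    have : χ τ0⁻¹ = 0 := by
      by_contra h5
      exact hne ((ne_zero_iff _).1 h5)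
    rw [this] at h
    revert h; decide
  have h2 : χ (τ0⁻¹ * σ) = 0 := by rw [hχ, hinv, hσ]; decide
  have h3 := h0 _ h2
  have h4 : τ0 ((τ0⁻¹ * σ) (x - τ0 x)) = τ0 (x - τ0 x) := by rw [h3]
  have h5 : τ0 ((τ0⁻¹ * σ) (x - τ0 x)) = (τ0 * (τ0⁻¹ * σ)) (x - τ0 x) := rfl
  rw [h5, mul_inv_cancel_left, hτ] at h4
  exact h4


theorem fixed_mem (x : AlgebraicClosure K) (h : ∀ σ : GKK K, σ x = x) :
    ∃ y : K, algebraMap K (AlgebraicClosure K) y = x := by
  have := isGalAC K
  exact (InfiniteGalois.mem_range_algebraMap_iff_fixed (k := K) x).2 h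

end gen

/-- a nonzero rational number is a squarefree integer times a square -/
theorem rat_sqf (r : ℚ) (hr : r ≠ 0) : ∃ (d : ℤ) (t : ℚ), Squarefree d ∧ t ≠ 0 ∧ r * t ^ 2 = d := by
  have hn : r.num * r.den ≠ 0 := mul_ne_zero (Rat.num_ne_zero.2 hr) (by exact_mod_cast r.den_ne_zero)
  obtain ⟨a, b, hab, ha⟩ := Nat.sq_mul_squarefree (r.num * r.den).natAbs
  have hb : b ≠ 0 := by
    rintro rfl
    apply hn
    rw [zero_pow two_ne_zero, zero_mul] at hab
    exact Int.natAbs_eq_zero.1 hab.symm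
  refine ⟨(r.num * r.den).sign * a, r.den / b, ?_, ?_, ?_⟩
  · have hu : IsUnit (r.num * r.den).sign := by
      rw [Int.isUnit_iff]
      rcases lt_trichotomy (r.num * r.den) 0 with h | h | h
      · right; exact Int.sign_eq_neg_one_of_neg h
      · exact absurd h hn
      · left; exact Int.sign_eq_one_of_pos h
    have h2 : Squarefree (a : ℤ) := by
      rw [← Int.squarefree_natAbs] 
      simpa using ha
    exact (Associated.squarefree_iff (associated_unit_mul_right (a : ℤ) _ hu)).1 h2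
  · exact div_ne_zero (by exact_mod_cast r.den_ne_zero) (by exact_mod_cast hb)
  · have hb' : (b : ℚ) ≠ 0 := by exact_mod_cast hb
    have hd' : (r.den : ℚ) ≠ 0 := by exact_mod_cast r.den_ne_zero
    have h1 : ((r.num * r.den : ℤ) : ℚ) = r * (r.den : ℚ) ^ 2 := by
      push_cast
      have : (r.num : ℚ) = r * r.den := by
        rw [Rat.mul_den_eq_num]
      rw [this]; ring
    have h2 : (r.num * r.den).sign * ((b : ℤ) ^ 2 * (a : ℤ)) = r.num * r.den := by
      have h3 : ((b : ℤ) ^ 2 * (a : ℤ)) = ((r.num * r.den).natAbs : ℤ) := by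
        rw [← hab]; push_cast; ring
      rw [h3]
      exact Int.sign_mul_natAbs _
    have h3 : r * (r.den : ℚ) ^ 2 = ((r.num * r.den).sign : ℚ) * ((b : ℚ) ^ 2 * (a : ℚ)) := by
      rw [← h1, ← h2]
      push_cast
      have h5 : ((r.num * (r.den : ℤ)).sign * ((b : ℤ) ^ 2 * (a : ℤ))).sign = (r.num * (r.den : ℤ)).sign := by
        rw [h2]
      rw [h5]
    rw [div_pow]
    push_cast
    rw [← mul_div_assoc, h3]
    field_simp

theorem qch (χ : G0 → ZMod 2) (hc : IsLocallyConstant χ) (hχ : ∀ σ τ, χ (σ * τ) = χ σ + χ τ) :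
    ∃ d : ℤ, Squarefree d ∧ ∀ (σ : G0) (y : Q0), y ^ 2 = ((d : ℤ) : Q0) → (σ y = y ↔ χ σ = 0) := by
  by_cases h : ∃ τ0, χ τ0 ≠ 0
  · obtain ⟨τ0, hτ0⟩ := h
    rw [ne_zero_iff] at hτ0
    obtain ⟨y0, hy0, h0, h1⟩ := exists_elt χ hc hχ τ0 hτ0
    have hall : ∀ σ : G0, σ (y0 ^ 2) = y0 ^ 2 := by
      intro σ
      rw [map_pow]
      by_cases hσ : χ σ = 0
      · rw [h0 σ hσ]
      · rw [h1 σ ((ne_zero_iff _).1 hσ)]; ring
    obtain ⟨r, hr⟩ := fixed_mem (y0 ^ 2) hall
    have hr0 : r ≠ 0 := by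
      rintro rfl
      rw [map_zero] at hr
      exact hy0 (pow_eq_zero_iff two_ne_zero |>.1 hr.symm)
    obtain ⟨d, t, hd, ht, hrt⟩ := rat_sqf r hr0
    refine ⟨d, hd, ?_⟩
    intro σ y hy
    have hy2 : y ^ 2 = (y0 * (@algebraMap ℚ Q0 _ _ (AlgebraicClosure.instAlgebra ℚ)) t) ^ 2 := by
      rw [hy, mul_pow, ← hr, ← map_pow, ← map_mul, hrt]
      simp
    have hk : ∀ s : Q0, s ≠ 0 → (s = -s → False) := by
      intro s hs h
      have : (2 : Q0) * s = 0 := by linear_combination h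
      rcases mul_eq_zero.1 this with h' | h'
      · exact two_ne_zero h'
      · exact hs h'
    have hz : y0 * (@algebraMap ℚ Q0 _ _ (AlgebraicClosure.instAlgebra ℚ)) t ≠ 0 :=
      mul_ne_zero hy0 ((map_ne_zero _).2 ht)
    have key : σ (y0 * (@algebraMap ℚ Q0 _ _ (AlgebraicClosure.instAlgebra ℚ)) t) = y0 * (@algebraMap ℚ Q0 _ _ (AlgebraicClosure.instAlgebra ℚ)) t ↔ χ σ = 0 := by
      constructor
      · intro he
        by_contra hne
        have h2 := h1 σ ((ne_zero_iff _).1 hne)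
        rw [map_mul, h2, AlgEquiv.commutes] at he
        exact hk _ hz (by linear_combination -he)
      · intro he
        rw [map_mul, h0 σ he, AlgEquiv.commutes]
    rcases sq_eq_sq_iff_eq_or_eq_neg.1 hy2 with h' | h'
    · rw [h']; exact key
    · rw [h', map_neg, neg_inj]; exact key
  · push Not at h
    refine ⟨1, squarefree_one, ?_⟩
    intro σ y hy
    have : y = 1 ∨ y = -1 := by
      have : y ^ 2 = 1 ^ 2 := by rw [hy]; simp
      exact sq_eq_sq_iff_eq_or_eq_neg.1 this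
    constructor
    · intro _; exact h σ
    · intro _
      rcases this with rfl | rfl <;> simp

end Pool.Agent.Q251.HD
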