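import Pool.Agent.Q274.HD.Stm2
import Pool.Agent.Q251.HD.QCH0

/-!
# Project HD, job QCH: quadratic characters of the absolute Galois group of `ℚ`
-/

set_option autoImplicit false

namespace Pool.Agent.Q251.HD

theorem t_QCH : Pool.Agent.Q274.HD.S_QCH := fun χ hc hχ => qch χ hc hχ

end Pool.Agent.Q251.HD
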